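import Pool.Agent.R847.PC.Cert

set_option autoImplicit false

/-! Dynamical Mordell-Lang for strictly critically finite polynomial maps. -/

namespace Pool.Agent.R847.PC

open MvPolynomial Pool.Agent.H936R2 Pool.Agent.R847.QP Pool.Agent.R847.Gap

variable {ι : Type} [Fintype ι] [DecidableEq ι]

/-- Dynamical Mordell-Lang for strictly critically finite polynomial self-maps of affine space. -/
theorem strict_pcf (f : ι → MvPolynomial ι ℂ) (k : ℕ) (D : ℕ → Set (MvPolynomial ι ℂ))
    (h0 : ∀ z : ι → ℂ, ∀ g ∈ D 0, eval z g = 0)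
    (hinv : ∀ i, 0 < i → i ≤ k → ∀ z : ι → ℂ, (∀ g ∈ D i, eval z g = 0) →
      ∀ g ∈ D i, eval (pt f z) g = 0)
    (hcrit : ∀ i < k, ∃ m : ℕ, ∀ z : ι → ℂ, (∀ g ∈ D i, eval z g = 0) → (jac f z).det = 0 →
      ∀ g ∈ D (i + 1), eval ((pt f)^[m] z) g = 0)
    (htot : ∀ z : ι → ℂ, (∀ g ∈ D k, eval (pt f z) g = 0) → ∀ g ∈ D k, eval z g = 0)
    (a : ι → ℂ) (ha : ∃ g ∈ D k, eval a g ≠ 0) (S : Set (MvPolynomial ι ℂ)) :
    ∃ T : Finset (ℕ × ℕ), {n : ℕ | ∀ g ∈ S, eval ((pt f)^[n] a) g = 0} =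
      {n : ℕ | ∃ q ∈ T, ∃ m : ℕ, n = q.1 * m + q.2} := by
  classical
  -- finite systems of equations
  have hE1 : ∀ i, ∃ B' : Finset (MvPolynomial ι ℂ), (B' : Set (MvPolynomial ι ℂ)) ⊆ D i ∧
      ∀ z : ι → ℂ, (∃ g ∈ D i, eval z g ≠ 0) → ∃ g ∈ B', eval z g ≠ 0 := fun i => finite_sub (D i)
  choose E hED hE using hE1
  have hEz : ∀ i (z : ι → ℂ), (∀ g ∈ E i, eval z g = 0) ↔ (∀ g ∈ D i, eval z g = 0) := by
    intro i z
    constructor
    · intro h g hg
      by_contra hne
      obtain ⟨g', hg', hne'⟩ := hE i z ⟨g, hg, hne⟩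
      exact hne' (h g' hg')
    · exact fun h g hg => h g (hED i hg)
  choose! m hm using hcrit
  -- certificates
  obtain ⟨s0, hs0⟩ := cert_finset (ι := ι) ∅ (E 0) (fun z _ g hg => h0 z g (hED 0 hg))
  have hinv' : ∀ i, 0 < i → i ≤ k → ∃ s : Finset ℂ, ∀ (R : Subring ℂ), (s : Set ℂ) ⊆ R →
      (∀ P ∈ E i, Int R P) → (∀ g ∈ (E i).image (pull f 1), Int R g) →
      ∀ (k : Type) [Field k] (ρ : R →+* k) (z : ι → k),
        (∀ P ∈ E i, ev ρ z P = 0) → ∀ g ∈ (E i).image (pull f 1), ev ρ z g = 0 := by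
    intro i hi0 hik
    apply cert_finset
    intro z hz g hg
    obtain ⟨g', hg', rfl⟩ := Finset.mem_image.1 hg
    rw [eval_pull]
    exact hinv i hi0 hik z ((hEz i z).1 hz) g' (hED i hg')
  choose! s1 hs1 using hinv'
  have hcrit' : ∀ i, i < k → ∃ s : Finset ℂ, ∀ (R : Subring ℂ), (s : Set ℂ) ⊆ R →
      (∀ P ∈ insert (jdet f) (E i), Int R P) → (∀ g ∈ (E (i + 1)).image (pull f (m i)), Int R g) →
      ∀ (k : Type) [Field k] (ρ : R →+* k) (z : ι → k),
        (∀ P ∈ insert (jdet f) (E i), ev ρ z P = 0) →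
        ∀ g ∈ (E (i + 1)).image (pull f (m i)), ev ρ z g = 0 := by
    intro i hik
    apply cert_finset
    intro z hz g hg
    obtain ⟨g', hg', rfl⟩ := Finset.mem_image.1 hg
    rw [eval_pull]
    refine hm i hik z ((hEz i z).1 fun P hP => hz P (Finset.mem_insert_of_mem hP)) ?_ g'
      (hED _ hg')
    rw [← eval_jdet]
    exact hz _ (Finset.mem_insert_self _ _)
  choose! s2 hs2 using hcrit'
  obtain ⟨s3, hs3⟩ := cert_finset (ι := ι) ((E k).image (pull f 1)) (E k) (by
    intro z hz g hg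
    refine htot z ((hEz k _).1 fun g' hg' => ?_) g (hED k hg)
    have := hz _ (Finset.mem_image_of_mem _ hg')
    rwa [eval_pull] at this)
  -- the coefficients
  obtain ⟨c1, hc1⟩ := coeffs_finset (Finset.univ.image f)
  obtain ⟨c2, hc2⟩ := coeffs_finset ((Finset.range (k + 1)).biUnion E)
  obtain ⟨g0, hg0, hag0⟩ := hE k a ha
  let s : Finset ℂ := s0 ∪ (Finset.range (k + 1)).biUnion s1 ∪ (Finset.range (k + 1)).biUnion s2 ∪
    s3 ∪ c1 ∪ c2 ∪ Finset.univ.image a ∪ {(eval a g0)⁻¹}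
  obtain ⟨N₀, hN₀⟩ := emb_finite s
  obtain ⟨p, hpN, hp⟩ := Nat.exists_infinite_primes (N₀ + 1)
  have : Fact p.Prime := ⟨hp⟩
  obtain ⟨τ, hτ⟩ := hN₀ p (by omega)
  let R : Subring ℂ := (unitBall (PadicAlgCl p)).comap (τ : ℂ →+* PadicAlgCl p)
  have hR : ∀ x ∈ s, x ∈ R := fun x hx => hτ x hx
  let σ : R →+* unitBall (PadicAlgCl p) :=
    { toFun := fun x => ⟨τ x.1, x.2⟩
      map_one' := by
        apply Subtype.ext
        exact map_one τ
      map_mul' := fun x y => by
        apply Subtype.ext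
        exact map_mul τ x.1 y.1
      map_zero' := by
        apply Subtype.ext
        exact map_zero τ
      map_add' := fun x y => by
        apply Subtype.ext
        exact map_add τ x.1 y.1 }
  have hσ : ∀ x : R, ((σ x : unitBall (PadicAlgCl p)) : PadicAlgCl p) = τ x.1 := fun x => rfl
  let ρ : R →+* ResF (PadicAlgCl p) := (res (PadicAlgCl p)).comp σ
  have hs0R : (s0 : Set ℂ) ⊆ R := fun x hx => hR x (by simp [s, Finset.mem_coe.1 hx])
  have hs3R : (s3 : Set ℂ) ⊆ R := fun x hx => hR x (by simp [s, Finset.mem_coe.1 hx])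
  have hc1R : (c1 : Set ℂ) ⊆ R := fun x hx => hR x (by simp [s, Finset.mem_coe.1 hx])
  have hc2R : (c2 : Set ℂ) ⊆ R := fun x hx => hR x (by simp [s, Finset.mem_coe.1 hx])
  have hs1R : ∀ i, i ≤ k → (s1 i : Set ℂ) ⊆ R := by
    intro i hi x hx
    apply hR x
    have : x ∈ (Finset.range (k + 1)).biUnion s1 :=
      Finset.mem_biUnion.2 ⟨i, Finset.mem_range.2 (by omega), hx⟩
    simp only [s, Finset.mem_union]
    tauto
  have hs2R : ∀ i, i ≤ k → (s2 i : Set ℂ) ⊆ R := by
    intro i hi x hx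
    apply hR x
    have : x ∈ (Finset.range (k + 1)).biUnion s2 :=
      Finset.mem_biUnion.2 ⟨i, Finset.mem_range.2 (by omega), hx⟩
    simp only [s, Finset.mem_union]
    tauto
  have haR : ∀ i, a i ∈ R := by
    intro i
    apply hR
    have : a i ∈ Finset.univ.image a := Finset.mem_image_of_mem _ (Finset.mem_univ _)
    simp only [s, Finset.mem_union]
    tauto
  have hinvR : (eval a g0)⁻¹ ∈ R := by
    apply hR
    simp [s]
  have hfInt : ∀ i, Int R (f i) := fun i => hc1 R hc1R _ (Finset.mem_image_of_mem _ (Finset.mem_univ _))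
  have hEInt : ∀ i, i ≤ k → ∀ g ∈ E i, Int R g := fun i hi g hg =>
    hc2 R hc2R _ (Finset.mem_biUnion.2 ⟨i, Finset.mem_range.2 (by omega), hg⟩)
  choose fR hfR using hfInt
  let F : ι → MvPolynomial ι (unitBall (PadicAlgCl p)) := fun i => map σ (fR i)
  let aR : ι → R := fun i => ⟨a i, haR i⟩
  let b : ι → unitBall (PadicAlgCl p) := fun i => σ (aR i)
  -- the orbit
  have horb : ∀ n i, (((pt F)^[n] b i : unitBall (PadicAlgCl p)) : PadicAlgCl p) =
      τ ((pt f)^[n] a i) := by
    intro n i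
    have e1 := pt_map σ fR aR n
    have e2 := pt_map R.subtype fR aR n
    have e3 : (fun i => map R.subtype (fR i)) = f := funext hfR
    have e4 : (fun i => R.subtype (aR i)) = a := rfl
    rw [e3, e4] at e2
    have e5 := congrFun e1 i
    have e6 := congrFun e2 i
    change (pt F)^[n] b i = _ at e5
    rw [e5, hσ, e6]
    rfl
  -- the residue orbit
  let zb : ℕ → ι → ResF (PadicAlgCl p) := fun n i => res _ ((pt F)^[n] b i)
  have hFb : (fun i => map (res (PadicAlgCl p)) (F i)) = fun i => map ρ (fR i) := by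
    funext i
    exact map_map _ _ _
  have hzb : ∀ n l, (pt fun i => map ρ (fR i))^[l] (zb n) = zb (n + l) := by
    intro n l
    have h1 := pt_map (res (PadicAlgCl p)) F ((pt F)^[n] b) l
    rw [hFb, ← Function.iterate_add_apply, Nat.add_comm l n] at h1
    exact h1
  obtain ⟨N, q, hq, hper⟩ := res_orbit_periodic p F b
  have hper' : ∀ n, N ≤ n → zb (n + q) = zb n := by
    intro n hn
    have h1 := hper n hn
    rw [hFb] at h1
    have h2 := hzb n q
    change (pt fun i => map ρ (fR i))^[q] (zb n) = zb n at h1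
    rw [← h2, h1]
  have hper2 : ∀ n, N ≤ n → ∀ t, zb (n + t * q) = zb n := by
    intro n hn t
    induction t with
    | zero => simp
    | succ t ih =>
      rw [Nat.succ_mul, ← Nat.add_assoc, hper' _ (by omega), ih]
  -- the transfer of the containments
  have hst1 : ∀ i, 0 < i → i ≤ k → ∀ n, (∀ g ∈ E i, ev ρ (zb n) g = 0) →
      ∀ g ∈ E i, ev ρ (zb (n + 1)) g = 0 := by
    intro i hi0 hik n hn g hg
    have h1 := hs1 i hi0 hik R (hs1R i hik) (hEInt i hik) (by
      intro g' hg'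
      obtain ⟨g'', hg'', rfl⟩ := Finset.mem_image.1 hg'
      exact int_pull fR f hfR 1 g'' (hEInt i hik g'' hg'')) _ ρ (zb n) hn _
        (Finset.mem_image_of_mem _ hg)
    rw [ev_pull ρ fR f hfR 1 g (hEInt i hik g hg), hzb] at h1
    exact h1
  have hst1' : ∀ i, 0 < i → i ≤ k → ∀ n, (∀ g ∈ E i, ev ρ (zb n) g = 0) →
      ∀ l, ∀ g ∈ E i, ev ρ (zb (n + l)) g = 0 := by
    intro i hi0 hik n hn l
    induction l with
    | zero => exact hn
    | succ l ih => exact hst1 i hi0 hik _ ih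
  have hst2 : ∀ i, i < k → ∀ n, (∀ g ∈ E i, ev ρ (zb n) g = 0) → ev ρ (zb n) (jdet f) = 0 →
      ∀ g ∈ E (i + 1), ev ρ (zb (n + m i)) g = 0 := by
    intro i hik n hn hj g hg
    have h1 := hs2 i hik R (hs2R i hik.le) (by
      intro P hP
      rcases Finset.mem_insert.1 hP with rfl | hP
      · exact int_jdet fR f hfR
      · exact hEInt i hik.le P hP) (by
      intro g' hg'
      obtain ⟨g'', hg'', rfl⟩ := Finset.mem_image.1 hg'
      exact int_pull fR f hfR _ g'' (hEInt (i + 1) hik g'' hg'')) _ ρ (zb n) (by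
      intro P hP
      rcases Finset.mem_insert.1 hP with rfl | hP
      · exact hj
      · exact hn P hP) _ (Finset.mem_image_of_mem _ hg)
    rw [ev_pull ρ fR f hfR _ g (hEInt (i + 1) hik g hg), hzb] at h1
    exact h1
  have hst3 : ∀ n, (∀ g ∈ E k, ev ρ (zb (n + 1)) g = 0) → ∀ g ∈ E k, ev ρ (zb n) g = 0 := by
    intro n hn g hg
    refine hs3 R hs3R (by
      intro g' hg'
      obtain ⟨g'', hg'', rfl⟩ := Finset.mem_image.1 hg'
      exact int_pull fR f hfR 1 g'' (hEInt k le_rfl g'' hg'')) (hEInt k le_rfl) _ ρ (zb n) ?_ g hg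
    intro P hP
    obtain ⟨g'', hg'', rfl⟩ := Finset.mem_image.1 hP
    rw [ev_pull ρ fR f hfR 1 g'' (hEInt k le_rfl g'' hg''), hzb]
    exact hn g'' hg''
  -- the orbit is etale modulo `p`
  have hdet : ∀ n, N ≤ n → IsUnit (jac F ((pt F)^[n] b)).det := by
    intro n hn
    by_contra hnu
    have hres : res (PadicAlgCl p) (jac F ((pt F)^[n] b)).det = 0 := by
      by_contra hne
      exact hnu (isUnit_of_res_ne_zero _ hne)
    have hJ : ev ρ (zb n) (jdet f) = 0 := by
      rw [ev_jdet ρ fR f hfR, ← hFb]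
      have h2 := jac_map (res (PadicAlgCl p)) F ((pt F)^[n] b)
      change jac _ (zb n) = _ at h2
      rw [h2, ← RingHom.map_det, hres]
    have hall : ∀ i, i ≤ k → ∀ n', N ≤ n' → ∀ g ∈ E i, ev ρ (zb n') g = 0 := by
      intro i
      induction i with
      | zero =>
        intro _ n' _ g hg
        exact hs0 R hs0R (by simp) (hEInt 0 (Nat.zero_le _)) _ ρ (zb n') (by simp) g hg
      | succ i ih =>
        intro hik n' hn' g hg
        have h1 := hst2 i (by omega) n (ih (by omega) n hn) hJ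
        have h2 := hst1' (i + 1) (Nat.succ_pos _) hik _ h1
        have h3 : n + m i ≤ n' + (n + m i) * q := by
          have : n + m i ≤ (n + m i) * q := Nat.le_mul_of_pos_right _ hq
          omega
        obtain ⟨l, hl⟩ := Nat.exists_eq_add_of_le h3
        rw [← hper2 n' hn' (n + m i), hl]
        exact h2 l g hg
    have hk := hall k le_rfl N le_rfl
    have hdesc : ∀ l, l ≤ N → ∀ g ∈ E k, ev ρ (zb (N - l)) g = 0 := by
      intro l
      induction l with
      | zero => intro _; simpa using hk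
      | succ l ih =>
        intro hl
        apply hst3
        have : N - (l + 1) + 1 = N - l := by omega
        rw [this]
        exact ih (by omega)
    have hfin := hdesc N le_rfl g0 hg0
    rw [Nat.sub_self] at hfin
    obtain ⟨G, hG⟩ := hEInt k le_rfl g0 hg0
    rw [← hG, ev_map] at hfin
    have h5 : eval₂ ρ (zb 0) G = ρ (eval aR G) := by
      have h6 := eval₂_comp_left ρ (RingHom.id _) aR G
      rw [RingHom.comp_id] at h6
      exact h6.symm
    rw [h5] at hfin
    have h7 : ((eval aR G : R) : ℂ) = eval a g0 := by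
      rw [← hG, eval_map]
      have h6 := eval₂_comp_left R.subtype (RingHom.id _) aR G
      rw [RingHom.comp_id] at h6
      exact h6
    have h8 : eval aR G * ⟨(eval a g0)⁻¹, hinvR⟩ = 1 := by
      apply Subtype.ext
      change ((eval aR G : R) : ℂ) * (eval a g0)⁻¹ = 1
      rw [h7]
      exact mul_inv_cancel₀ hag0
    have h9 := congrArg ρ h8
    rw [map_mul, hfin, zero_mul, map_one] at h9
    exact zero_ne_one h9
  -- conclusion
  obtain ⟨n0, kk, hkk, hS⟩ := return_set p F b N hdet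
  apply exists_progressions _ n0 kk hkk
  intro r hinf t
  have hev : ∀ (n : ℕ) (g : MvPolynomial ι ℂ),
      eval (fun i => (((pt F)^[n] b i : unitBall (PadicAlgCl p)) : PadicAlgCl p))
        (map (τ : ℂ →+* PadicAlgCl p) g) = τ (eval ((pt f)^[n] a) g) := by
    intro n g
    have e1 : (fun i => (((pt F)^[n] b i : unitBall (PadicAlgCl p)) : PadicAlgCl p)) =
        fun i => τ ((pt f)^[n] a i) := funext (horb n)
    rw [e1, eval_map]
    have h := eval₂_comp_left (τ : ℂ →+* PadicAlgCl p) (RingHom.id _) ((pt f)^[n] a) g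
    rw [RingHom.comp_id] at h
    exact h.symm
  have h1 := hS ((fun g => map (τ : ℂ →+* PadicAlgCl p) g) '' S) r (by
    refine hinf.mono fun t ht => ?_
    rintro _ ⟨g, hg, rfl⟩
    change eval _ (map (τ : ℂ →+* PadicAlgCl p) g) = 0
    rw [hev, ht g hg, map_zero]) t
  intro g hg
  have h2 := h1 _ ⟨g, hg, rfl⟩
  change eval _ (map (τ : ℂ →+* PadicAlgCl p) g) = 0 at h2
  rw [hev] at h2
  exact (map_eq_zero τ).1 h2

end Pool.Agent.R847.PC
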