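import Pool.Agent.R847.PC.Main

set_option autoImplicit false

/-! Dynamical Mordell-Lang for strictly critically finite endomorphisms of projective space, and a
family of examples. -/

namespace Pool.Agent.R847.PC

open MvPolynomial Pool.Agent.H936R2 Pool.Agent.R847.QP Pool.Agent.R847.Gap

/-- The projective form of `strict_pcf`. -/
theorem strict_proj {N : ℕ} (f : Fin (N + 1) → MvPolynomial (Fin (N + 1)) ℂ)
    (hf0 : ∀ x : Fin (N + 1) → ℂ, (∀ i, eval x (f i) = 0) → x = 0) (hf1 : pt f 0 = 0)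
    (k : ℕ) (D : ℕ → Set (MvPolynomial (Fin (N + 1)) ℂ))
    (h0 : ∀ z : Fin (N + 1) → ℂ, z ≠ 0 → ∀ g ∈ D 0, eval z g = 0)
    (hinv : ∀ i ≤ k, ∀ z : Fin (N + 1) → ℂ, z ≠ 0 → (∀ g ∈ D i, eval z g = 0) →
      ∀ g ∈ D i, eval (pt f z) g = 0)
    (hcrit : ∀ i < k, ∃ m : ℕ, ∀ z : Fin (N + 1) → ℂ, z ≠ 0 → (∀ g ∈ D i, eval z g = 0) →
      (jac f z).det = 0 → ∀ g ∈ D (i + 1), eval ((pt f)^[m] z) g = 0)
    (htot : ∀ z : Fin (N + 1) → ℂ, z ≠ 0 → (∀ g ∈ D k, eval (pt f z) g = 0) →
      ∀ g ∈ D k, eval z g = 0)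
    (a : Fin (N + 1) → ℂ) (ha0 : a ≠ 0) (ha : ∃ g ∈ D k, eval a g ≠ 0)
    (S : Set (MvPolynomial (Fin (N + 1)) ℂ)) :
    ∃ T : Finset (ℕ × ℕ), {n : ℕ | ∀ g ∈ S, eval ((pt f)^[n] a) g = 0} =
      {n : ℕ | ∃ q ∈ T, ∃ m : ℕ, n = q.1 * m + q.2} := by
  classical
  let D' : ℕ → Set (MvPolynomial (Fin (N + 1)) ℂ) := fun i =>
    {h | ∃ g ∈ D i, ∃ j, h = X j * g}
  have hz : ∀ i (z : Fin (N + 1) → ℂ), (∀ h ∈ D' i, eval z h = 0) ↔
      (z = 0 ∨ ∀ g ∈ D i, eval z g = 0) := by
    intro i z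
    constructor
    · intro h
      by_cases hz : z = 0
      · exact Or.inl hz
      · right
        obtain ⟨j, hj⟩ := Function.ne_iff.1 hz
        intro g hg
        have h1 := h _ ⟨g, hg, j, rfl⟩
        rw [map_mul, eval_X] at h1
        exact (mul_eq_zero.1 h1).resolve_left hj
    · rintro (rfl | h) _ ⟨g, hg, j, rfl⟩
      · rw [map_mul, eval_X]
        simp
      · rw [map_mul, h g hg, mul_zero]
  have hne : ∀ (z : Fin (N + 1) → ℂ), z ≠ 0 → pt f z ≠ 0 := by
    intro z hz h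
    exact hz (hf0 z fun i => congrFun h i)
  have hit0 : ∀ n, (pt f)^[n] 0 = 0 := by
    intro n
    induction n with
    | zero => rfl
    | succ n ih => rw [Function.iterate_succ_apply', ih, hf1]
  apply strict_pcf f k D'
  · intro z
    rw [hz]
    by_cases h : z = 0
    · exact Or.inl h
    · exact Or.inr (h0 z h)
  · intro i _ hi z hzi
    rw [hz] at hzi ⊢
    rcases hzi with rfl | h
    · exact Or.inl hf1
    · by_cases h' : z = 0
      · subst h'
        exact Or.inl hf1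
      · exact Or.inr (hinv i hi z h' h)
  · intro i hi
    obtain ⟨m, hm⟩ := hcrit i hi
    refine ⟨m, fun z hzi hj => ?_⟩
    rw [hz] at hzi ⊢
    by_cases h' : z = 0
    · subst h'
      exact Or.inl (hit0 m)
    · exact Or.inr (hm z h' (hzi.resolve_left h') hj)
  · intro z hzi
    rw [hz] at hzi ⊢
    by_cases h' : z = 0
    · exact Or.inl h'
    · exact Or.inr (htot z h' (hzi.resolve_left (hne z h')))
  · obtain ⟨g, hg, hga⟩ := ha
    obtain ⟨j, hj⟩ := Function.ne_iff.1 ha0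
    refine ⟨X j * g, ⟨g, hg, j, rfl⟩, ?_⟩
    rw [map_mul, eval_X]
    exact mul_ne_zero hj hga

/-! ### The maps of Fornæss and Sibony -/

section FS

variable (N d : ℕ) (ζ : ℂ)

/-- The map `x_i ↦ (x_0 - (1 - ζ) x_{i+1})^d`. -/
noncomputable def fs : Fin (N + 1) → MvPolynomial (Fin (N + 1)) ℂ :=
  fun i => (X 0 - C (1 - ζ) * X (i + 1)) ^ d

lemma pt_fs (x : Fin (N + 1) → ℂ) (i : Fin (N + 1)) :
    pt (fs N d ζ) x i = (x 0 - (1 - ζ) * x (i + 1)) ^ d := by
  simp [pt, fs]

variable {N d ζ}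

lemma fs_lin (hζ1 : ζ ≠ 1) (hζ0 : ζ ≠ 0) (v : Fin (N + 1) → ℂ)
    (h : ∀ i, v 0 - (1 - ζ) * v (i + 1) = 0) : v = 0 := by
  have h0 : v 0 = 0 := by
    have h1 := h (Fin.last N)
    rw [Fin.last_add_one] at h1
    have h2 : ζ * v 0 = 0 := by linear_combination h1
    exact (mul_eq_zero.1 h2).resolve_left hζ0
  funext j
  have h1 := h (j - 1)
  rw [sub_add_cancel, h0, zero_sub, neg_eq_zero, mul_eq_zero] at h1
  exact h1.resolve_left (sub_ne_zero.2 (Ne.symm hζ1))

lemma fs_ne (hd : d ≠ 0) (hζ1 : ζ ≠ 1) (hζ0 : ζ ≠ 0) (x : Fin (N + 1) → ℂ)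
    (h : ∀ i, eval x (fs N d ζ i) = 0) : x = 0 := by
  apply fs_lin hζ1 hζ0
  intro i
  have h1 := h i
  have h2 := pt_fs N d ζ x i
  rw [pt] at h2
  rw [h2] at h1
  exact (pow_eq_zero_iff hd).1 h1

/-- A critical point is mapped to a point with a zero coordinate. -/
lemma fs_crit (hd : d ≠ 0) (hζ1 : ζ ≠ 1) (hζ0 : ζ ≠ 0) (x : Fin (N + 1) → ℂ)
    (h : (jac (fs N d ζ) x).det = 0) : ∃ i, pt (fs N d ζ) x i = 0 := by
  classical
  by_contra hno
  push Not at hno
  obtain ⟨v, hv, hv0⟩ := Matrix.exists_mulVec_eq_zero_iff.2 h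
  apply hv
  apply fs_lin hζ1 hζ0
  intro i
  have h1 := congrFun hv0 i
  have h2 : ∀ j, jac (fs N d ζ) x i j = (d : ℂ) * (x 0 - (1 - ζ) * x (i + 1)) ^ (d - 1) *
      ((if j = 0 then 1 else 0) - (1 - ζ) * (if j = i + 1 then 1 else 0)) := by
    intro j
    simp only [jac, fs]
    rw [Derivation.leibniz_pow]
    simp only [nsmul_eq_mul, smul_eq_mul, map_mul, map_natCast, map_pow, map_sub, eval_X, eval_C,
      Derivation.leibniz, pderiv_X, Pi.single_apply, pderiv_C]
    rw [mul_assoc]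
    congr 2
    by_cases h3 : j = 0 <;> by_cases h4 : j = i + 1 <;>
      simp only [h3, h4, eq_comm, if_true, if_false] <;> (try split_ifs) <;> simp
  simp only [Matrix.mulVec, dotProduct, h2, Pi.zero_apply] at h1
  have h3 : ∑ j, (d : ℂ) * (x 0 - (1 - ζ) * x (i + 1)) ^ (d - 1) *
      ((if j = 0 then 1 else 0) - (1 - ζ) * (if j = i + 1 then 1 else 0)) * v j =
      (d : ℂ) * (x 0 - (1 - ζ) * x (i + 1)) ^ (d - 1) * (v 0 - (1 - ζ) * v (i + 1)) := by
    simp only [mul_assoc, ← Finset.mul_sum, sub_mul, Finset.sum_sub_distrib, ite_mul, one_mul,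
      zero_mul, Finset.sum_ite_eq', Finset.mem_univ, if_true]
  rw [h3] at h1
  have h4 : (d : ℂ) * (x 0 - (1 - ζ) * x (i + 1)) ^ (d - 1) ≠ 0 := by
    apply mul_ne_zero (Nat.cast_ne_zero.2 hd)
    apply pow_ne_zero
    intro h5
    apply hno i
    rw [pt_fs, h5, zero_pow hd]
  exact (mul_eq_zero.1 h1).resolve_left h4

/-- The number of different coordinates. -/
noncomputable def nd (x : Fin (N + 1) → ℂ) : ℕ := by
  classical
  exact (Finset.univ.image x).card

lemma fs_image (x : Fin (N + 1) → ℂ) : by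
    classical
    exact Finset.univ.image (pt (fs N d ζ) x) =
      (Finset.univ.image x).image fun t => (x 0 - (1 - ζ) * t) ^ d := by
  classical
  ext y
  simp only [Finset.mem_image, Finset.mem_univ, true_and, exists_exists_eq_and]
  constructor
  · rintro ⟨i, rfl⟩
    exact ⟨i + 1, (pt_fs N d ζ x i).symm⟩
  · rintro ⟨i, rfl⟩
    exact ⟨i - 1, by rw [pt_fs, sub_add_cancel]⟩

lemma nd_fs_le (x : Fin (N + 1) → ℂ) : nd (pt (fs N d ζ) x) ≤ nd x := by
  classical
  unfold nd
  rw [fs_image]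
  exact Finset.card_image_le

/-- If the number of different coordinates does not change then no coordinates are identified. -/
lemma fs_inj (x : Fin (N + 1) → ℂ) (h : nd (pt (fs N d ζ) x) = nd x) (i j : Fin (N + 1))
    (hij : pt (fs N d ζ) x i = pt (fs N d ζ) x j) : x (i + 1) = x (j + 1) := by
  classical
  unfold nd at h
  rw [fs_image] at h
  have h1 := Finset.card_image_iff.1 h
  apply h1
  · simp
  · simp
  · rw [pt_fs, pt_fs] at hij
    exact hij

lemma nd_iter_le (x : Fin (N + 1) → ℂ) (m l : ℕ) (h : m ≤ l) :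
    nd ((pt (fs N d ζ))^[l] x) ≤ nd ((pt (fs N d ζ))^[m] x) := by
  induction l, h using Nat.le_induction with
  | base => exact le_rfl
  | succ l _ ih =>
    rw [Function.iterate_succ_apply']
    exact (nd_fs_le _).trans ih

/-- Critical points lose different coordinates. -/
lemma fs_drop (hd : d ≠ 0) (hζ : ζ ^ d = 1) (hζ1 : ζ ≠ 1) (x : Fin (N + 1) → ℂ) (hx : x ≠ 0)
    (h : (jac (fs N d ζ) x).det = 0) : nd ((pt (fs N d ζ))^[N + 2] x) < nd x := by
  classical
  have hζ0 : ζ ≠ 0 := by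
    rintro rfl
    rw [zero_pow hd] at hζ
    exact zero_ne_one hζ
  by_contra hge
  rw [not_lt] at hge
  let y : ℕ → Fin (N + 1) → ℂ := fun j => (pt (fs N d ζ))^[j] x
  have hy : ∀ j, y (j + 1) = pt (fs N d ζ) (y j) := fun j => Function.iterate_succ_apply' _ _ _
  have heq : ∀ j, j < N + 2 → nd (pt (fs N d ζ) (y j)) = nd (y j) := by
    intro j hj
    apply le_antisymm (nd_fs_le _)
    rw [← hy]
    calc nd (y j) ≤ nd (y 0) := nd_iter_le x 0 j (Nat.zero_le _)
      _ ≤ nd (y (N + 2)) := hge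
      _ ≤ nd (y (j + 1)) := nd_iter_le x (j + 1) (N + 2) hj
  -- a zero coordinate forces the coordinate `0` to vanish
  have hA : ∀ j, j < N + 2 → (∃ e, y j e = 0) → y j 0 = 0 := by
    rintro j hj ⟨e, he⟩
    have h1 : pt (fs N d ζ) (y j) (e - 1) = pt (fs N d ζ) (y j) (-1) := by
      rw [pt_fs, pt_fs, sub_add_cancel, neg_add_cancel, he, mul_zero, sub_zero]
      have : y j 0 - (1 - ζ) * y j 0 = ζ * y j 0 := by ring
      rw [this, mul_pow, hζ, one_mul]
    have h2 := fs_inj (y j) (heq j hj) _ _ h1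
    rw [sub_add_cancel, neg_add_cancel, he] at h2
    exact h2.symm
  have hB : ∀ j, 1 ≤ j → j < N + 2 → y j 0 = 0 := by
    intro j hj1
    induction j, hj1 using Nat.le_induction with
    | base =>
      intro hj
      apply hA 1 hj
      exact fs_crit hd hζ1 hζ0 x h
    | succ j hj1 ih =>
      intro hj
      apply hA (j + 1) hj
      refine ⟨-1, ?_⟩
      rw [hy, pt_fs, neg_add_cancel, ih (by omega), mul_zero, sub_zero, zero_pow hd]
  have hC : ∀ t j : ℕ, 1 ≤ j → j + t < N + 2 → y j (t • (1 : Fin (N + 1))) = 0 := by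
    intro t
    induction t with
    | zero =>
      intro j hj1 hj
      rw [zero_nsmul]
      exact hB j hj1 (by omega)
    | succ t ih =>
      intro j hj1 hj
      have h1 := ih (j + 1) (by omega) (by omega)
      rw [hy, pt_fs, hB j hj1 (by omega), zero_sub, pow_eq_zero_iff hd, neg_eq_zero,
        mul_eq_zero] at h1
      rw [succ_nsmul]
      exact h1.resolve_left (sub_ne_zero.2 (Ne.symm hζ1))
  have hy1 : y 1 = 0 := by
    funext i
    have h1 := hC (i : ℕ) 1 le_rfl (by omega)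
    have hsurj : ∀ i : Fin (N + 1), (i : ℕ) • (1 : Fin (N + 1)) = i := by
      intro i
      induction i using Fin.induction with
      | zero => exact zero_nsmul _
      | succ i ih =>
        rw [Fin.val_succ, succ_nsmul]
        rw [Fin.val_castSucc] at ih
        rw [ih, Fin.coeSucc_eq_succ]
    rwa [hsurj] at h1
  apply hx
  apply fs_ne hd hζ1 hζ0
  intro i
  exact congrFun hy1 i

/-- The equations of the set of points with few different coordinates. -/
noncomputable def vdm (r : ℕ) (φ : Fin r → Fin (N + 1)) : MvPolynomial (Fin (N + 1)) ℂ :=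
  ∏ q ∈ (Finset.univ : Finset (Fin r × Fin r)).filter fun q => q.1 < q.2,
    (X (φ q.1) - X (φ q.2))

lemma vdm_homogeneous (r : ℕ) (φ : Fin r → Fin (N + 1)) : ∃ e : ℕ, (vdm r φ).IsHomogeneous e := by
  refine ⟨_, IsHomogeneous.prod _ _ (fun _ => 1) fun q _ => ?_⟩
  exact (isHomogeneous_X _ _).sub (isHomogeneous_X _ _)

lemma nd_lt_iff (r : ℕ) (x : Fin (N + 1) → ℂ) :
    (∀ φ : Fin r → Fin (N + 1), eval x (vdm r φ) = 0) ↔ nd x < r := by
  classical
  constructor
  · intro h
    by_contra hge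
    rw [not_lt] at hge
    unfold nd at hge
    obtain ⟨t, ht, htc⟩ := Finset.exists_subset_card_eq hge
    have e := (t.equivFinOfCardEq htc).symm
    have h1 : ∀ i : Fin r, ∃ j, x j = (e i : ℂ) := by
      intro i
      have := ht (e i).2
      simpa using this
    choose φ hφ using h1
    have h2 := h φ
    unfold vdm at h2
    rw [map_prod, Finset.prod_eq_zero_iff] at h2
    obtain ⟨q, hq, h3⟩ := h2
    rw [map_sub, eval_X, eval_X, hφ, hφ, sub_eq_zero] at h3
    have h4 := e.injective (Subtype.ext h3)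
    simp only [Finset.mem_filter, Finset.mem_univ, true_and] at hq
    exact absurd h4 (ne_of_lt hq)
  · intro h φ
    unfold nd at h
    have h1 : ∃ i ∈ (Finset.univ : Finset (Fin r)), ∃ j ∈ (Finset.univ : Finset (Fin r)),
        i ≠ j ∧ x (φ i) = x (φ j) := by
      apply Finset.exists_ne_map_eq_of_card_lt_of_maps_to (t := Finset.univ.image x)
      · rwa [Finset.card_univ, Fintype.card_fin]
      · intro i _
        simp
    obtain ⟨i, -, j, -, hij, hx⟩ := h1
    unfold vdm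
    rw [map_prod, Finset.prod_eq_zero_iff]
    rcases lt_or_gt_of_ne hij with hlt | hlt
    · refine ⟨(i, j), by simpa using hlt, ?_⟩
      rw [map_sub, eval_X, eval_X, hx, sub_self]
    · refine ⟨(j, i), by simpa using hlt, ?_⟩
      rw [map_sub, eval_X, eval_X, hx, sub_self]

lemma nd_pos (x : Fin (N + 1) → ℂ) : 0 < nd x := by
  classical
  unfold nd
  rw [Finset.card_pos]
  exact ⟨x 0, by simp⟩

lemma nd_le (x : Fin (N + 1) → ℂ) : nd x ≤ N + 1 := by
  classical
  unfold nd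
  calc _ ≤ (Finset.univ : Finset (Fin (N + 1))).card := Finset.card_image_le
    _ = N + 1 := by simp

end FS

end Pool.Agent.R847.PC
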